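import Pool.Agent.H23.QCF.Targets

/-!
# Row B4: the auxiliary places
-/

set_option autoImplicit false

open NumberField IsDedekindDomain Pool.Agent.H23.QCF
open Pool.Agent.H32.QC (Sol hil Iso FPl Pl ic hs sqAt HasseConic ProdFormula Prescribed)

namespace Pool.Agent.H99.QCF.B4

section

variable {K : Type} [Field K] [NumberField K]

theorem mem_SQS (A : Set (Pl K)) (x : Kˣ) : x ∈ SQS A ↔ ∀ p ∈ A, sqAt p (x : K) := by
  unfold SQS
  rw [Subgroup.mem_iInf]
  refine forall_congr' fun p => ?_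
  rw [Subgroup.mem_iInf]
  exact Iff.rfl

theorem mem_sqs (u : Kˣ) : u ∈ sqs K ↔ IsSquare (u : K) := by
  constructor
  · rintro ⟨d, rfl⟩
    refine ⟨(d : K), ?_⟩
    show ((d ^ 2 : Kˣ) : K) = d * d
    rw [Units.val_pow_eq_pow_val, sq]
  · rintro ⟨c, hcu⟩
    have hc0 : c ≠ 0 := by
      rintro rfl
      exact u.ne_zero (by rw [hcu, mul_zero])
    refine ⟨Units.mk0 c hc0, Units.ext ?_⟩
    show ((Units.mk0 c hc0 ^ 2 : Kˣ) : K) = u
    rw [Units.val_pow_eq_pow_val, Units.val_mk0, hcu, sq]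

theorem val_exp (v : FPl K) (u : Kˣ) : ∃ m : ℤ, v.valuation K (u : K) = WithZero.exp m := by
  have h : v.valuation K (u : K) ≠ 0 := (Valuation.ne_zero_iff _).2 u.ne_zero
  exact ⟨_, (WithZero.exp_log h).symm⟩

theorem US_mono {S S' : Set (FPl K)} (h : S ⊆ S') : US S ≤ US S' := fun _ hu v hv =>
  hu v fun hv' => hv (h hv')

/-- the claim -/
theorem claim (hb2 : T_B2) (hune : T_UNE) (hunr : T_UNR) (hsym : T_HSYM) (hsq : T_HSQ)
    {S S' : Set (FPl K)} (hS : Good S) (hS' : Good S') {n : ℕ} (l : Fin n → Kˣ)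
    (hl : ∀ i, l i ∈ US S) (v : Fin n → FPl K) (hvS : ∀ i, v i ∉ S)
    (hSS' : S' = S ∪ Set.range v) (hns : ∀ j, ¬ sqAt (Sum.inl (v j)) (l j : K))
    (hss : ∀ i j, i ≠ j → sqAt (Sum.inl (v i)) (l j : K)) (hinj : Function.Injective v)
    (u : Kˣ) (hu : u ∈ US S') (huS : u ∈ SQS (Sp S)) : u ∈ sqs K := by
  rw [mem_sqs]
  by_contra hnsu
  obtain ⟨T, hT, ⟨p, hp⟩, hev⟩ := hb2 K S' hS' u hu hnsu
  have hTv : ∀ q ∈ T, ∃ j, q = Sum.inl (v j) := by
    intro q hq
    have h1 := hT hq
    have h2 : q ∉ Sp S := fun h => h1.2 ((mem_SQS _ _).1 huS q h)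
    have h3 : ∃ w, q = Sum.inl w ∧ w ∉ S := by
      by_contra hno
      exact h2 fun w hw => by_contra fun hwS => hno ⟨w, hw, hwS⟩
    obtain ⟨w, hw, hwS⟩ := h3
    have h4 : w ∈ S' := h1.1 w hw
    rw [hSS'] at h4
    obtain ⟨j, hj⟩ := h4.resolve_left hwS
    exact ⟨j, by rw [hw, hj]⟩
  have hSsub : S ⊆ S' := by
    rw [hSS']
    exact Set.subset_union_left
  by_cases hodd : ∃ j m, (Sum.inl (v j) : Pl K) ∈ T ∧
      (v j).valuation K (u : K) = WithZero.exp m ∧ Odd m
  · obtain ⟨j, m, hjT, hm, hmo⟩ := hodd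
    have h1 := hev (l j) (US_mono hSsub (hl j))
    have h2 : {q | q ∈ T ∧ hs q (l j : K) (u : K) = -1} = {(Sum.inl (v j) : Pl K)} := by
      ext q
      rw [Set.mem_singleton_iff]
      constructor
      · rintro ⟨hq, hq'⟩
        obtain ⟨i, rfl⟩ := hTv q hq
        by_contra hne
        have hij : i ≠ j := fun h => hne (by rw [h])
        have h3 := hsq K (Sum.inl (v i)) (u : K) (l j : K) (hss i j hij)
        rw [hsym, hq'] at h3
        norm_num at h3
      · rintro rfl
        refine ⟨hjT, ?_⟩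
        rw [hsym]
        refine hunr K (v j) (u : K) (l j : K) m 0 (hS.dy _ (hvS j)) hm ?_ hmo Even.zero (hns j)
        rw [hl j (v j) (hvS j), WithZero.exp_zero]
    rw [h2, Set.ncard_singleton] at h1
    exact absurd h1 (by decide)
  · have hevn : ∀ j, (Sum.inl (v j) : Pl K) ∈ T → ∃ m : ℤ,
        (v j).valuation K (u : K) = WithZero.exp m ∧ Even m := by
      intro j hj
      obtain ⟨m, hm⟩ := val_exp (v j) u
      refine ⟨m, hm, ?_⟩
      rw [← Int.not_odd_iff_even]
      exact fun h => hodd ⟨j, m, hj, hm, h⟩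
    obtain ⟨j, rfl⟩ := hTv p hp
    obtain ⟨π, hπ, hπ'⟩ := hS.pr (v j) (hvS j)
    have hπS : π ∈ US S' := by
      intro w hw
      rw [hSS'] at hw
      refine hπ' w (fun h => hw (Or.inl h)) ?_
      rintro rfl
      exact hw (Or.inr ⟨j, rfl⟩)
    have h1 := hev π hπS
    have h2 : {q | q ∈ T ∧ hs q (π : K) (u : K) = -1} = {(Sum.inl (v j) : Pl K)} := by
      ext q
      rw [Set.mem_singleton_iff]
      constructor
      · rintro ⟨hq, hq'⟩
        obtain ⟨i, rfl⟩ := hTv q hq
        by_contra hne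
        have hij : v i ≠ v j := fun h => hne (by rw [h])
        obtain ⟨m, hm, hme⟩ := hevn i hq
        have h3 := hune K (v i) (π : K) (u : K) 0 m (hS.dy _ (hvS i))
          (by rw [hπ' (v i) (hvS i) hij, WithZero.exp_zero]) hm Even.zero hme
        rw [hq'] at h3
        norm_num at h3
      · rintro rfl
        refine ⟨hp, ?_⟩
        obtain ⟨m, hm, hme⟩ := hevn j hp
        exact hunr K (v j) (π : K) (u : K) (-1) m (hS.dy _ (hvS j)) hπ hm (by decide) hme
          (hT hp).2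
    rw [h2, Set.ncard_singleton] at h1
    exact absurd h1 (by decide)

end

end Pool.Agent.H99.QCF.B4

namespace Pool.Agent.H99.QCF

theorem pf_B4 (hbas : T_BAS) (hdet : T_DET) (hb2 : T_B2) (hune : T_UNE) (hunr : T_UNR)
    (hsym : T_HSYM) (hsq : T_HSQ) : T_B4 := by
  intro K _ _ S hS t ht hnt
  obtain ⟨n, l, hn, hl, hind⟩ := hbas K S hS.fin t ht (fun h => hnt ((B4.mem_sqs t).1 h))
  have hex : ∀ j : Fin n, ∃ v : FPl K, v ∉ S ∧ ¬ sqAt (Sum.inl v) (l j : K) ∧
      sqAt (Sum.inl v) (t : K) ∧ ∀ i, i ≠ j → sqAt (Sum.inl v) (l i : K) := by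
    intro j
    classical
    have hr : Set.range (fun i => if i = j then t else l i) ⊆ {t} ∪ l '' {j}ᶜ := by
      rintro _ ⟨i, rfl⟩
      by_cases hi : i = j
      · left
        show (if i = j then t else l i) ∈ ({t} : Set Kˣ)
        rw [if_pos hi]
        exact rfl
      · right
        show (if i = j then t else l i) ∈ l '' {j}ᶜ
        rw [if_neg hi]
        exact ⟨i, hi, rfl⟩
    have hnot : l j ∉ sqs K ⊔ Subgroup.closure
        (Set.range (fun i => if i = j then t else l i)) := by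
      intro h
      exact hind j (sup_le_sup_left (Subgroup.closure_mono hr) _ h)
    obtain ⟨v, hv, hv1, hv2⟩ := hdet n K (l j) _ hnot S hS.fin
    refine ⟨v, hv, hv1, ?_, fun i hi => ?_⟩
    · have h := hv2 j
      rw [if_pos rfl] at h
      exact h
    · have h := hv2 i
      rw [if_neg hi] at h
      exact h
  choose v hvS hns hst hss using hex
  have hinj : Function.Injective v := by
    intro i j hij
    by_contra hne
    have h1 := hss i j (Ne.symm hne)
    rw [hij] at h1
    exact hns j h1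
  have hfin : (S ∪ Set.range v).Finite := hS.fin.union (Set.finite_range v)
  have hgood : Good (S ∪ Set.range v) := by
    refine ⟨hfin, fun w hw => hS.dy w fun h => hw (Or.inl h), fun w hw => ?_⟩
    obtain ⟨π, hπ, hπ'⟩ := hS.pr w fun h => hw (Or.inl h)
    exact ⟨π, hπ, fun w' hw' hne => hπ' w' (fun h => hw' (Or.inl h)) hne⟩
  refine ⟨S ∪ Set.range v, Set.subset_union_left, hgood, ?_, ?_, ?_⟩
  · have hdis : Disjoint S (Set.range v) := by
      rw [Set.disjoint_left]
      rintro w hw ⟨j, rfl⟩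
      exact hvS j hw
    have hcard : (Set.range v).ncard = n := by
      rw [← Set.image_univ, Set.ncard_image_of_injective _ hinj, Set.ncard_univ, Nat.card_fin]
    unfold cnt at hn ⊢
    rw [Set.ncard_union_eq hdis hS.fin (Set.finite_range v), hcard]
    omega
  · rintro w (hw | ⟨j, rfl⟩) hwS
    · exact absurd hw hwS
    · exact hst j
  · intro u hu huS
    exact B4.claim hb2 hune hunr hsym hsq hS hgood l hl v hvS rfl hns
      (fun i j hij => hss i j (Ne.symm hij)) hinj u hu huS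

end Pool.Agent.H99.QCF
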