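import Pool.Agent.H23.QCF.Targets

/-!
# Row B6D: the parity over `RR`
-/

set_option autoImplicit false

open NumberField IsDedekindDomain Pool.Agent.H23.QCF
open Pool.Agent.H32.QC (Sol hil Iso FPl Pl ic hs sqAt HasseConic ProdFormula Prescribed)

namespace Pool.Agent.H99.QCF

section

variable {K : Type} [Field K] [NumberField K]

theorem hs_sign (p : Pl K) (a b : K) : hs p a b = 1 ∨ hs p a b = -1 := by
  rcases p with v | φ
  · show hil _ _ = 1 ∨ hil _ _ = -1
    unfold hil
    split_ifs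
    · exact Or.inl rfl
    · exact Or.inr rfl
  · show hil _ _ = 1 ∨ hil _ _ = -1
    unfold hil
    split_ifs
    · exact Or.inl rfl
    · exact Or.inr rfl

theorem empty_PT (hmul : T_HMUL) {b : K} (hb : b ≠ 0) : (∅ : Set (Pl K)) ∈ PT b := by
  refine ⟨1, ?_⟩
  rw [Set.eq_empty_iff_forall_notMem]
  intro p hp
  have hp' : hs p ((1 : Kˣ) : K) b = -1 := hp
  have h1 := hmul K p 1 1 b one_ne_zero one_ne_zero hb
  rw [mul_one] at h1
  rw [Units.val_one] at hp'
  rw [hp'] at h1
  norm_num at h1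

theorem symm_PT (hmul : T_HMUL) {b : K} (hb : b ≠ 0) {X Y : Set (Pl K)} (hX : X ∈ PT b)
    (hY : Y ∈ PT b) : symmDiff X Y ∈ PT b := by
  obtain ⟨u, rfl⟩ := hX
  obtain ⟨w, rfl⟩ := hY
  refine ⟨u * w, ?_⟩
  ext p
  have h1 := hmul K p (u : K) (w : K) b u.ne_zero w.ne_zero hb
  rw [Set.mem_symmDiff]
  show hs p ((u * w : Kˣ) : K) b = -1 ↔ _
  rw [Units.val_mul, h1]
  show _ ↔ (hs p (u : K) b = -1 ∧ ¬ hs p (w : K) b = -1) ∨
    (hs p (w : K) b = -1 ∧ ¬ hs p (u : K) b = -1)
  rcases hs_sign p (u : K) b with h2 | h2 <;> rcases hs_sign p (w : K) b with h3 | h3 <;>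
    rw [h2, h3] <;> norm_num

theorem sq_inl (v : FPl K) {b : K} (h : IsSquare b) : sqAt (Sum.inl v) b := by
  obtain ⟨c, rfl⟩ := h
  exact ⟨ic v c, map_mul (ic v) c c⟩

theorem sq_inr (φ : K →+* ℝ) {b : K} (h : IsSquare b) : sqAt (Sum.inr φ) b := by
  obtain ⟨c, rfl⟩ := h
  exact ⟨φ c, map_mul φ c c⟩

theorem prop_aux (P1 P2 : Prop) : P1 ∧ ¬(P1 ∧ ¬P2) ∨ (P1 ∧ ¬P2) ∧ ¬P1 ↔ P1 ∧ P2 := by
  tauto

theorem insert_eq {α : Type} {p : α} {Y : Set α} (h : p ∉ Y) : insert p Y = symmDiff {p} Y := by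
  ext x
  rw [Set.mem_symmDiff, Set.mem_insert_iff, Set.mem_singleton_iff]
  by_cases hx : x = p
  · rw [hx]
    simp [h]
  · simp [hx]

theorem par (hmul : T_HMUL) (h6a : T_B6A) {b : K} (hb : b ≠ 0) (hns : ¬ IsSquare b)
    (Y : Finset (Pl K)) : (∀ p ∈ Y, p ∈ RR K ∧ ¬ sqAt p b) →
      ((Y : Set (Pl K)) ∈ PT b ↔ Even Y.card) := by
  classical
  induction Y using Finset.induction_on with
  | empty =>
    intro _
    rw [Finset.coe_empty, Finset.card_empty]
    exact iff_of_true (empty_PT hmul hb) Even.zero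
  | insert p Y hp ih =>
    intro h
    have ih' := ih fun q hq => h q (Finset.mem_insert_of_mem hq)
    have hpp := h p (Finset.mem_insert_self p Y)
    have hsing : ({p} : Set (Pl K)) ∉ PT b := hpp.1 b hb hpp.2
    have hp' : p ∉ (Y : Set (Pl K)) := fun h' => hp (Finset.mem_coe.1 h')
    rw [Finset.coe_insert, Finset.card_insert_of_notMem hp, Nat.even_add_one, ← ih',
      insert_eq hp']
    constructor
    · intro h1 h2
      have h3 := symm_PT hmul hb h1 h2
      rw [symmDiff_assoc, symmDiff_self, symmDiff_bot] at h3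
      exact hsing h3
    · intro h1
      refine h6a K b hns {p} Y (Set.finite_singleton p) (Finset.finite_toSet Y) ?_ ?_ hsing h1
      · intro q hq
        rw [Set.mem_singleton_iff.1 hq]
        exact hpp.2
      · intro q hq
        exact (h q (Finset.mem_insert_of_mem (Finset.mem_coe.1 hq))).2

theorem sub_PT (hmul : T_HMUL) {b : K} (hb : b ≠ 0) (Y : Finset (Pl K)) :
    (∀ p ∈ Y, ({p} : Set (Pl K)) ∈ PT b) → (Y : Set (Pl K)) ∈ PT b := by
  classical
  induction Y using Finset.induction_on with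
  | empty =>
    intro _
    rw [Finset.coe_empty]
    exact empty_PT hmul hb
  | insert p Y hp ih =>
    intro h
    have hp' : p ∉ (Y : Set (Pl K)) := fun h' => hp (Finset.mem_coe.1 h')
    rw [Finset.coe_insert, insert_eq hp']
    exact symm_PT hmul hb (h p (Finset.mem_insert_self p Y))
      (ih fun q hq => h q (Finset.mem_insert_of_mem hq))

end

theorem pf_B6D (h6a : T_B6A) (h6c : T_B6C) (hpf : T_PFIN) (hmul : T_HMUL) : T_B6D := by
  intro K _ _ a b ha hb
  classical
  obtain ⟨hfin, hnsq, -⟩ := hpf K a b ha hb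
  by_cases hsq : IsSquare b
  · have h0 : PP a b ∩ RR K = ∅ := by
      rw [Set.eq_empty_iff_forall_notMem]
      rintro p ⟨hp, -⟩
      refine hnsq p hp ?_
      rcases p with v | φ
      · exact sq_inl v hsq
      · exact sq_inr φ hsq
    rw [h0, Set.ncard_empty]
    exact Even.zero
  · have hX : PP a b ∈ PT b := ⟨Units.mk0 a ha, rfl⟩
    have hfin1 : (PP a b \ RR K).Finite := hfin.subset Set.sdiff_subset
    have hfin2 : (PP a b ∩ RR K).Finite := hfin.subset Set.inter_subset_left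
    have h1 : PP a b \ RR K ∈ PT b := by
      have h2 := sub_PT hmul hb hfin1.toFinset (by
        intro p hp
        rw [Set.Finite.mem_toFinset] at hp
        have hpR : p ∉ RR K := hp.2
        have h3 : ∃ t0 : K, t0 ≠ 0 ∧ ¬ sqAt p t0 ∧ ({p} : Set (Pl K)) ∈ PT t0 := by
          by_contra hno
          exact hpR fun t0 ht0 hs0 hm => hno ⟨t0, ht0, hs0, hm⟩
        obtain ⟨t0, ht0, -, hm⟩ := h3
        exact h6c K p t0 b ht0 hb (hnsq p hp.1) hm)
      rw [Set.Finite.coe_toFinset] at h2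
      exact h2
    have h2 : PP a b ∩ RR K ∈ PT b := by
      have h3 := symm_PT hmul hb hX h1
      have h4 : symmDiff (PP a b) (PP a b \ RR K) = PP a b ∩ RR K := by
        ext p
        rw [Set.mem_symmDiff, Set.mem_sdiff, Set.mem_inter_iff]
        exact prop_aux _ _
      rw [h4] at h3
      exact h3
    have h3 := par hmul h6a hb hsq hfin2.toFinset (by
      intro p hp
      rw [Set.Finite.mem_toFinset] at hp
      exact ⟨hp.2, hnsq p hp.1⟩)
    rw [Set.Finite.coe_toFinset] at h3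
    rw [Set.ncard_eq_toFinset_card _ hfin2]
    exact h3.1 h2

end Pool.Agent.H99.QCF
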