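import Pool.Agent.H23.QCF.Targets

/-!
# Row B6E: every place lies in `RR`
-/

set_option autoImplicit false

open NumberField IsDedekindDomain Pool.Agent.H23.QCF
open Pool.Agent.H32.QC (Sol hil Iso FPl Pl ic hs sqAt HasseConic ProdFormula Prescribed)

namespace Pool.Agent.H99.QCF

section

variable {K : Type} [Field K] [NumberField K]

theorem mem_SQS (A : Set (Pl K)) (x : Kˣ) : x ∈ SQS A ↔ ∀ p ∈ A, sqAt p (x : K) := by
  unfold SQS
  rw [Subgroup.mem_iInf]
  refine forall_congr' fun p => ?_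
  rw [Subgroup.mem_iInf]
  exact Iff.rfl

theorem fin_Sp {S : Set (FPl K)} (hS : S.Finite) : (Sp S).Finite := by
  refine ((hS.image Sum.inl).union (Set.finite_range (Sum.inr : (K →+* ℝ) → Pl K))).subset ?_
  rintro (v | φ) hp
  · exact Or.inl ⟨v, hp v rfl, rfl⟩
  · exact Or.inr ⟨φ, rfl⟩

/-- an element which is a given one at one place and a square at the others -/
theorem one_place (hwa : T_WA) (A : Set (Pl K)) (hA : A.Finite) (p1 : Pl K) (a : Kˣ) :
    ∃ y : Kˣ, (∀ p ∈ A, p ≠ p1 → sqAt p (y : K)) ∧ (p1 ∈ A → sqAt p1 ((y * a : Kˣ) : K)) := by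
  classical
  obtain ⟨y, hy⟩ := hwa K A hA (fun p => if p = p1 then a else 1)
  refine ⟨y, fun p hp hne => ?_, fun hp => ?_⟩
  · have h := hy p hp
    rw [if_neg hne, mul_one] at h
    exact h
  · have h := hy p1 hp
    rw [if_pos rfl] at h
    exact h

theorem sign_eq (u : ℤˣ) (h : (u : ℤ) = 1) : u = 1 := Units.ext h

theorem sign_eq' (u : ℤˣ) (h : (u : ℤ) = -1) : u = -1 := Units.ext h

end

theorem pf_B6E (h6d : T_B6D) (h6b : T_B6B) (hcnt : T_CNT) (hsu : T_SU) (hiso : T_ISO)
    (hchi : T_CHI) (hnd : T_HND) (hwa : T_WA) (hnsq : T_NSQ) (hg : T_GOOD) (hpf : T_PFIN)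
    (hmul : T_HMUL) (hsym : T_HSYM) (h6c : T_B6C) : T_B6E := by
  intro K _ _
  classical
  rw [Set.eq_univ_iff_forall]
  by_contra hcon
  rw [not_forall] at hcon
  obtain ⟨p0, hp0⟩ := hcon
  -- the set of places
  have hA0 : {v : FPl K | p0 = Sum.inl v}.Finite := by
    refine Set.Subsingleton.finite ?_
    intro v hv w hw
    have hv' : p0 = Sum.inl v := hv
    have hw' : p0 = Sum.inl w := hw
    exact Sum.inl_injective (hv'.symm.trans hw')
  obtain ⟨S, hS0, hS⟩ := hg K _ hA0
  have hp0S : p0 ∈ Sp S := fun v hv => hS0 hv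
  have hSp : (Sp S).Finite := fin_Sp hS.fin
  set A : Set (Pl K) := Sp S ∩ RR K with hAdef
  have hA : A.Finite := hSp.subset Set.inter_subset_left
  have hp0A : p0 ∉ A := fun h => hp0 h.2
  set D : Subgroup Kˣ := SQS A with hD
  -- the pairing
  choose χ hχ1 hχ2 using fun (p : Pl K) (t : Kˣ) => hchi K p (t : K) t.ne_zero
  have hval : ∀ p (x y : Kˣ), ((χ p x y : ℤˣ) : ℤ) = hs p (y : K) (x : K) := fun p x y =>
    hχ1 p x y
  have hsy : ∀ p (x y : Kˣ), χ p x y = χ p y x := by
    intro p x y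
    refine Units.ext ?_
    rw [hval, hval]
    exact hsym K p _ _
  let B : Pl K → Kˣ →* (Kˣ →* ℤˣ) := fun p => MonoidHom.mk' (fun x => χ p x) (by
    intro x x'
    ext y
    rw [MonoidHom.mul_apply, hsy p (x * x') y, map_mul, hsy p y x, hsy p y x'])
  have hB : ∀ p (x y : Kˣ), B p x y = χ p x y := fun _ _ _ => rfl
  let b : Kˣ →* (Kˣ →* ℤˣ) := ∏ p ∈ hA.toFinset, B p
  have hb : ∀ x y : Kˣ, b x y = ∏ p ∈ hA.toFinset, χ p x y := by
    intro x y
    show (∏ p ∈ hA.toFinset, B p) x y = _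
    rw [MonoidHom.finsetProd_apply, MonoidHom.finsetProd_apply]
    rfl
  -- the kernel
  have hker : ∀ x, x ∈ D ↔ ∀ y, b x y = 1 := by
    intro x
    rw [hD, mem_SQS]
    constructor
    · intro hx y
      rw [hb]
      refine Finset.prod_eq_one fun p hp => ?_
      rw [hsy]
      exact hχ2 p y x (hx p (hA.mem_toFinset.1 hp))
    · intro h p1 hp1
      by_contra hns
      obtain ⟨a, ha0, ha⟩ := hnd K p1 (x : K) x.ne_zero hns
      obtain ⟨y, hy1, hy2⟩ := one_place hwa A hA p1 (Units.mk0 a ha0)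
      have h1 : χ p1 x y = -1 := by
        have h2 := hχ2 p1 x _ (hy2 hp1)
        rw [map_mul] at h2
        have h3 : χ p1 x (Units.mk0 a ha0) = -1 := by
          refine sign_eq' _ ?_
          rw [hval]
          exact ha
        rw [h3] at h2
        have h4 : χ p1 x y * (-1) * (-1) = 1 * (-1) := by rw [h2]
        simpa using h4
      have h2 := h y
      rw [hb, ← Finset.mul_prod_erase _ _ (hA.mem_toFinset.2 hp1), h1,
        Finset.prod_eq_one, mul_one] at h2
      · exact absurd h2 (by decide)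
      · intro p hp
        rw [Finset.mem_erase, hA.mem_toFinset] at hp
        exact hχ2 p x y (hy1 p hp.2 hp.1)
  have hbsy : ∀ x y, b x y = b y x := by
    intro x y
    rw [hb, hb]
    exact Finset.prod_congr rfl fun p _ => hsy p x y
  -- the index
  have hc := hcnt K S hS.fin hS.dy
  have hle : SQS (Sp S) ≤ D := by
    intro x hx
    rw [hD, mem_SQS]
    rw [mem_SQS] at hx
    exact fun p hp => hx p hp.1
  have hmulidx := Subgroup.relIndex_mul_index hle
  have hne : ¬ D ≤ SQS (Sp S) := by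
    intro hle'
    obtain ⟨a, ha0, ha⟩ := hnsq K p0
    obtain ⟨y, hy1, hy2⟩ := one_place hwa (Sp S) hSp p0 (Units.mk0 a ha0)
    have hyD : y ∈ D := by
      rw [hD, mem_SQS]
      intro p hp
      refine hy1 p hp.1 ?_
      rintro rfl
      exact hp0A hp
    have hyS := (mem_SQS _ _).1 (hle' hyD) p0 hp0S
    have h1 : y * Units.mk0 a ha0 ∈ SQ p0 := hy2 hp0S
    have h2 : y ∈ SQ p0 := hyS
    have h3 : Units.mk0 a ha0 ∈ SQ p0 := (Subgroup.mul_mem_cancel_left _ h2).1 h1
    exact ha h3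
  have hpos : 0 < 4 ^ cnt S := by positivity
  have hDne : D.index ≠ 0 := by
    intro h0
    rw [h0, mul_zero, hc] at hmulidx
    omega
  have hDle : 2 * D.index ≤ 4 ^ cnt S := by
    rw [← hc, ← hmulidx]
    refine Nat.mul_le_mul_right _ ?_
    have h1 : (SQS (Sp S)).relIndex D ≠ 1 := fun h => hne (Subgroup.relIndex_eq_one.1 h)
    have h0 : (SQS (Sp S)).relIndex D ≠ 0 := by
      intro h0
      rw [h0, zero_mul, hc] at hmulidx
      omega
    omega
  -- the isotropic subgroup
  have hIs : ∀ x, x ∈ US S → ∀ y, y ∈ US S → b x y = 1 := by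
    intro x hx y hy
    have hPP := (hpf K (x : K) (y : K) x.ne_zero y.ne_zero).2.2 S hS.dy hx hy
    have hev := h6d K (x : K) (y : K) x.ne_zero y.ne_zero
    have hset : (PP (x : K) (y : K) ∩ RR K) = ((hA.toFinset.filter fun p => χ p x y = -1 :
        Finset (Pl K)) : Set (Pl K)) := by
      ext p
      rw [Finset.coe_filter]
      constructor
      · rintro ⟨h1, h2⟩
        refine ⟨hA.mem_toFinset.2 ⟨hPP h1, h2⟩, ?_⟩
        rw [hsy]
        refine sign_eq' _ ?_
        rw [hval]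
        exact h1
      · rintro ⟨h1, h2⟩
        refine ⟨?_, (hA.mem_toFinset.1 h1).2⟩
        have h3 : χ p y x = -1 := by rw [hsy]; exact h2
        show hs p (x : K) (y : K) = -1
        rw [← hval, h3]
        rfl
    rw [hset, Set.ncard_coe_finset] at hev
    rw [hb, ← Finset.prod_filter_mul_prod_filter_not hA.toFinset (fun p => χ p x y = -1)]
    have h1 : ∏ p ∈ hA.toFinset.filter (fun p => χ p x y = -1), χ p x y = 1 := by
      rw [Finset.prod_congr rfl (g := fun _ => (-1 : ℤˣ))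
        (fun p hp => (Finset.mem_filter.1 hp).2), Finset.prod_const]
      exact hev.neg_one_pow
    have h2 : ∏ p ∈ hA.toFinset.filter (fun p => ¬ χ p x y = -1), χ p x y = 1 := by
      refine Finset.prod_eq_one fun p hp => ?_
      exact (Int.units_eq_one_or (χ p x y)).resolve_right (Finset.mem_filter.1 hp).2
    rw [h1, h2, mul_one]
  -- the intersection
  have hint : D ⊓ US S ≤ sqs K := by
    rintro u ⟨huD, huS⟩
    by_contra hns
    have hns' : ¬ IsSquare (u : K) := by
      rintro ⟨c, hcu⟩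
      have hc0 : c ≠ 0 := by
        rintro rfl
        exact u.ne_zero (by rw [hcu, mul_zero])
      refine hns ⟨Units.mk0 c hc0, Units.ext ?_⟩
      show ((Units.mk0 c hc0 ^ 2 : Kˣ) : K) = u
      rw [Units.val_pow_eq_pow_val, Units.val_mk0, hcu, sq]
    obtain ⟨p, hp, hpT⟩ := h6b K S hS u huS hns'
    have hpA : p ∉ A := fun h => hp.2 ((mem_SQS _ _).1 huD p h)
    have hpR : p ∉ RR K := fun h => hpA ⟨hp.1, h⟩
    have h1 : ∃ t0 : K, t0 ≠ 0 ∧ ¬ sqAt p t0 ∧ ({p} : Set (Pl K)) ∈ PT t0 := by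
      by_contra hno
      refine hpR fun t0 ht0 hs0 hm => hno ⟨t0, ht0, hs0, hm⟩
    obtain ⟨t0, ht0, -, hm⟩ := h1
    exact hpT (h6c K p t0 (u : K) ht0 u.ne_zero hp.2 hm)
  have hfin := hiso Kˣ b D (US S) hDne hker hbsy hIs
  have hs2 := hsu K S hS.fin
  have hrel : (sqs K).relIndex (US S) ≤ D.relIndex (US S) := by
    rw [← Subgroup.inf_relIndex_right D (US S)]
    refine Subgroup.relIndex_le_of_le_left hint ?_
    rw [Subgroup.inf_relIndex_right]
    intro h0
    have hdv := Subgroup.relIndex_dvd_index_of_normal D (US S)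
    rw [h0, zero_dvd_iff] at hdv
    exact hDne hdv
  rw [hs2] at hrel
  have h4 : (4 : ℕ) ^ cnt S = (2 ^ cnt S) ^ 2 := by
    rw [← pow_mul, mul_comm, pow_mul]
    norm_num
  have h5 : (2 ^ cnt S) ^ 2 ≤ (D.relIndex (US S)) ^ 2 := Nat.pow_le_pow_left hrel 2
  have h6 : D.index ≠ 0 := hDne
  omega

end Pool.Agent.H99.QCF
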